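import Pool.Agent.W935.SK.Stm3
import Pool.Agent.H684R3.Smo.Asm

/-! Project SK, part Q0: power saving and primes of polylogarithmic size. -/

set_option autoImplicit false

namespace Pool.Agent.W678.SK

open Polynomial Finset Pool.Agent.H884R2.Sko Pool.Agent.H692R2.USS Pool.Agent.W935.SK
open scoped Classical

theorem card_le_sub' {α β : Type} (S : Finset α) (Q : β → Prop) (hfin : Finite {v // Q v})
    (f : α → β) (hf : ∀ x ∈ S, ∀ y ∈ S, f x = f y → x = y) (hQ : ∀ a ∈ S, Q (f a)) :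
    S.card ≤ Nat.card {v // Q v} := by
  have h := Nat.card_le_card_of_injective (fun a : S => (⟨f a.1, hQ a.1 a.2⟩ : {v // Q v}))
    (fun x y h => by
      apply Subtype.ext
      apply hf _ x.2 _ y.2
      simpa using h)
  rwa [Nat.card_eq_fintype_card, Fintype.card_coe] at h

/-- the good residue classes -/
def GG {n : ℕ} (c : Fin (n + 1) → ℤ) (p : ℕ) : Set (Fin n → ZMod p) :=
  {y | ∀ a : Fin (n + 1) → ℤ, seq c a 0 = 0 → (∀ i : Fin n, (a i.succ : ZMod p) = y i) →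
    ∃ (b v : ℕ) (lam : ℤ), 2 * b ≤ p ∧ Cert c a p b v lam}

theorem card_GG {n : ℕ} (c : Fin (n + 1) → ℤ) (p : ℕ) (hp : p.Prime)
    (h : ∃ (b v : ℕ) (lam : ℤ)
      (Ω : Finset (Fin (n + 1) → ZMod p)), 2 * b ≤ p ∧ 2 * Ω.card ≤ p ^ (n + 1 - 1) ∧
      ∀ a : Fin (n + 1) → ℤ, seq c a 0 = 0 → (fun i => (a i : ZMod p)) ∉ Ω →
        Cert c a p b v lam) :
    (1 / 2 : ℝ) * (p : ℝ) ^ (Fintype.card (Fin n)) ≤ (Nat.card (GG c p) : ℝ) := by
  haveI : Fact p.Prime := ⟨hp⟩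
  obtain ⟨b, v, lam, Ω, hb, hΩ, hcert⟩ := h
  rw [Nat.add_sub_cancel] at hΩ
  set T : Finset (Fin n → ZMod p) :=
    Finset.univ.filter (fun y => (Fin.cons 0 y : Fin (n + 1) → ZMod p) ∉ Ω) with hT
  set U : Finset (Fin n → ZMod p) :=
    Finset.univ.filter (fun y => (Fin.cons 0 y : Fin (n + 1) → ZMod p) ∈ Ω) with hU
  have hTU : U.card + T.card = p ^ n := by
    have h1 := Finset.card_filter_add_card_filter_not (s := (Finset.univ : Finset (Fin n → ZMod p)))
      (fun y => (Fin.cons 0 y : Fin (n + 1) → ZMod p) ∈ Ω)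
    rw [Finset.card_univ, Fintype.card_fun, ZMod.card, Fintype.card_fin] at h1
    exact h1
  have hUΩ : U.card ≤ Ω.card := by
    apply Finset.card_le_card_of_injOn (fun y => (Fin.cons 0 y : Fin (n + 1) → ZMod p))
    · intro y hy
      exact (Finset.mem_filter.1 hy).2
    · intro y _ z _ hyz
      exact (Fin.cons_injective2 hyz).2
  have hTG : T.card ≤ Nat.card (GG c p) := by
    rw [Nat.card_coe_set_eq, ← Set.ncard_coe_finset T]
    apply Set.ncard_le_ncard _ (Set.toFinite _)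
    intro y hy a ha hay
    refine ⟨b, v, lam, hb, hcert a ha ?_⟩
    have h1 : (fun i => (a i : ZMod p)) = (Fin.cons 0 y : Fin (n + 1) → ZMod p) := by
      funext i
      refine Fin.cases ?_ (fun j => ?_) i
      · have h2 := seq_init c a 0
        rw [Fin.val_zero] at h2
        rw [ha] at h2
        rw [← h2]
        simp
      · rw [Fin.cons_succ]
        exact hay j
    rw [h1]
    have := Finset.mem_coe.1 hy
    rw [hT, Finset.mem_filter] at this
    exact this.2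
  have h3 : p ^ n ≤ 2 * Nat.card (GG c p) := by omega
  have h4 : ((p ^ n : ℕ) : ℝ) ≤ ((2 * Nat.card (GG c p) : ℕ) : ℝ) := by exact_mod_cast h3
  rw [Fintype.card_fin]
  push_cast at h4
  linarith

theorem q0 (h : S_PRIMEF) (h5 : Pool.Agent.H684R3.Smo.T5) (h8 : Pool.Agent.H684R3.Smo.T8) :
    S_Q0 := by
  intro d c hd h0 hsq hnd
  obtain ⟨n, rfl⟩ : ∃ n, d = n + 1 := ⟨d - 1, by omega⟩
  obtain ⟨g, p₀, hg, hgood⟩ := h (n + 1) c hd h0 hsq hnd
  obtain ⟨K, hF, hNF, hK⟩ := splitField_one g hg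
  obtain ⟨θ, hθ, y₀, hsup⟩ := @h8 K hF hNF
  set P : ℕ → Prop := fun p => (p.Prime ∧ p₀ ≤ p) ∧ (g.map (Int.castRingHom (ZMod p))).Splits
    with hP
  have hsupP : ∃ y₁ : ℕ, ∀ y : ℕ, y₁ ≤ y →
      (y : ℝ) ^ (θ / 2) ≤ (Nat.card {p : ℕ // P p ∧ p ≤ y} : ℝ) := by
    -- `y ^ θ - p₀ ≥ y ^ (θ / 2)` eventually
    have hev : ∀ᶠ y : ℕ in Filter.atTop, (p₀ : ℝ) + 1 ≤ (y : ℝ) ^ (θ / 2) := by
      have : Filter.Tendsto (fun y : ℕ => (y : ℝ) ^ (θ / 2)) Filter.atTop Filter.atTop :=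
        (tendsto_rpow_atTop (by positivity)).comp tendsto_natCast_atTop_atTop
      exact this.eventually_ge_atTop _
    obtain ⟨y₂, hy₂⟩ := Filter.eventually_atTop.1 hev
    refine ⟨max y₀ y₂, fun y hy => ?_⟩
    have h1 := hsup y ((le_max_left _ _).trans hy)
    have h2 := hy₂ y ((le_max_right _ _).trans hy)
    have hfinP : Finite {p : ℕ // P p ∧ p ≤ y} :=
      Set.Finite.subset (Set.finite_Iic y) (fun p hp => hp.2)
    have h3 : Nat.card {p : ℕ // (p.Prime ∧ @HasDegOne K hF hNF p) ∧ p ≤ y} ≤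
        Nat.card {p : ℕ // P p ∧ p ≤ y} + p₀ := by
      have e : Nat.card ({p : ℕ // P p ∧ p ≤ y} ⊕ Fin p₀) =
          Nat.card {p : ℕ // P p ∧ p ≤ y} + p₀ := by
        rw [Nat.card_sum, Nat.card_eq_fintype_card (α := Fin p₀), Fintype.card_fin]
      rw [← e]
      apply Nat.card_le_card_of_injective (fun p : {p : ℕ // (p.Prime ∧ @HasDegOne K hF hNF p) ∧
        p ≤ y} => if h : p.1 < p₀ then Sum.inr (⟨p.1, h⟩ : Fin p₀) else
          Sum.inl (⟨p.1, ⟨⟨p.2.1.1, not_lt.1 h⟩, hK p.1 p.2.1.1 p.2.1.2⟩, p.2.2⟩ :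
            {p : ℕ // P p ∧ p ≤ y}))
      intro x x' h
      apply Subtype.ext
      simp only at h
      split_ifs at h with h4 h5 h5
      · simpa using h
      · simpa using h
    have h4 : ((Nat.card {p : ℕ // (p.Prime ∧ @HasDegOne K hF hNF p) ∧ p ≤ y} : ℕ) : ℝ) ≤
        (Nat.card {p : ℕ // P p ∧ p ≤ y} : ℝ) + p₀ := by exact_mod_cast h3
    have h5 : (y : ℝ) ^ θ = (y : ℝ) ^ (θ / 2) * (y : ℝ) ^ (θ / 2) := by
      rcases Nat.eq_zero_or_pos y with rfl | hy0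
      · rw [Nat.cast_zero, Real.zero_rpow hθ.ne', Real.zero_rpow (by positivity)]; ring
      · rw [← Real.rpow_add (by exact_mod_cast hy0)]; congr 1; ring
    have h6 : (0 : ℝ) ≤ (p₀ : ℝ) := by positivity
    nlinarith
  set A : ℝ := 4 / θ with hA
  have hA0 : 0 < A := by positivity
  have hAθ : 1 < A * (θ / 2) := by
    have : A * (θ / 2) = 2 := by rw [hA]; field_simp; norm_num
    rw [this]; norm_num
  obtain ⟨δ, hδ, H₀, hmain⟩ := h5 (Fin n) P (fun p => GG c p) (1 / 2) (θ / 2) A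
    (by norm_num) (by positivity) hA0 hAθ
    (fun p hp => ⟨hp.1.1, card_GG c p hp.1.1 (hgood p hp.1.1 hp.1.2 hp.2)⟩) hsupP
  refine ⟨A, δ, hA0, hδ, H₀, fun H hH => ?_⟩
  have h1 := hmain H hH 0
  rw [Fintype.card_fin] at h1
  rw [Nat.add_sub_cancel]
  refine le_trans ?_ h1
  norm_cast
  refine card_le_sub' _ _ (Pool.Agent.H684R3.Smo.finite_sub _ _ _)
    (fun (a : Fin (n + 1) → ℤ) (i : Fin n) => a i.succ) ?_ ?_
  · intro x hx y hy hxy
    rw [Finset.mem_filter] at hx hy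
    have hx0 := seq_init c x 0
    have hy0 := seq_init c y 0
    rw [Fin.val_zero] at hx0 hy0
    rw [hx.2.1] at hx0
    rw [hy.2.1] at hy0
    funext i
    refine Fin.cases ?_ (fun j => ?_) i
    · rw [← hx0, ← hy0]
    · exact congrFun hxy j
  · intro a ha
    rw [Finset.mem_filter] at ha
    obtain ⟨hbox, ha0, hcert⟩ := ha
    rw [mem_box] at hbox
    refine ⟨?_, ?_⟩
    · unfold Pool.Agent.H684R3.Smo.bx
      rw [Fintype.mem_piFinset]
      intro i
      have := hbox i.succ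
      rw [abs_le] at this
      rw [Finset.mem_Icc]
      simp only [Pi.zero_apply] at this ⊢
      constructor <;> linarith [this.1, this.2]
    · intro p hp hpA hG
      apply hcert
      obtain ⟨b, v, lam, hb, hc⟩ := hG a ha0 (fun i => rfl)
      exact ⟨p, b, v, lam, hpA, hb, hc⟩

end Pool.Agent.W678.SK
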